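import Pool.Agent.UMG.StmtsB

/-!
# Row GSI of squad UMG, block B: `GS` is invariant
-/

set_option autoImplicit false

namespace Pool.Agent.UMG.B.H37

open Finset Pool.Agent.UMG Pool.Agent.UMG.B

theorem gsi : GsiStmt := by
  intro Ψ hΨ V H V' H' ν ν' h
  obtain ⟨e, f, hef⟩ := h
  unfold GS
  have key : ∀ x : H', ν' x = e (ν (f.symm x)) := by
    intro x
    rw [← hef, Equiv.apply_symm_apply]
  refine finsum_eq_of_bijective
    (fun γ : Gam ν => (⟨(f.permCongr γ.1.1, e.permCongr γ.1.2), ?_⟩ : Gam ν')) ⟨?_, ?_⟩ ?_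
  · intro x
    have h1 : ν (γ.1.1 (f.symm x)) = γ.1.2 (ν (f.symm x)) := γ.2 _
    show ν' (f.permCongr γ.1.1 x) = e.permCongr γ.1.2 (ν' x)
    rw [Equiv.permCongr_apply, Equiv.permCongr_apply, hef, h1, key x, Equiv.symm_apply_apply]
  · intro γ δ h
    have h1 := congrArg (fun z : Gam ν' => z.1) h
    simp only [Prod.mk.injEq] at h1
    apply Subtype.ext
    apply Prod.ext
    · exact (f.permCongr).injective h1.1
    · exact (e.permCongr).injective h1.2
  · intro δ
    refine ⟨⟨(f.permCongr.symm δ.1.1, e.permCongr.symm δ.1.2), ?_⟩, ?_⟩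
    · intro x
      have h1 : ν' (δ.1.1 (f x)) = δ.1.2 (ν' (f x)) := δ.2 _
      show ν (f.permCongr.symm δ.1.1 x) = e.permCongr.symm δ.1.2 (ν x)
      rw [Equiv.permCongr_symm, Equiv.permCongr_symm, Equiv.permCongr_apply,
        Equiv.permCongr_apply, Equiv.symm_symm, Equiv.symm_symm, ← hef, ← h1, key,
        Equiv.symm_apply_apply]
    · apply Subtype.ext
      apply Prod.ext
      · exact f.permCongr.apply_symm_apply _
      · exact e.permCongr.apply_symm_apply _
  · intro γ
    apply hΨ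
    refine ⟨e, f, hef, fun x => ?_⟩
    show f (γ.1.1 x) = f.permCongr γ.1.1 (f x)
    rw [Equiv.permCongr_apply, Equiv.symm_apply_apply]

end Pool.Agent.UMG.B.H37
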