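import Pool.Agent.UMG.StmtsB

/-!
# Row GSP of squad UMG, block B: the automorphisms of a sum
-/

set_option autoImplicit false

namespace Pool.Agent.UMG.B.H37

open Finset Pool.Agent.UMG Pool.Agent.UMG.B

section

variable {m k : ℕ} {V H : Type} (ν : H → V)

/-- the sum of the standard map of `m` vertices of degree `k` and of `ν` -/
def nn : (Fin m × Fin k) ⊕ H → Fin m ⊕ V := Sum.map (Prod.fst : Fin m × Fin k → Fin m) ν

/-- the automorphism given by the data -/
def mk (x : (Equiv.Perm (Fin m) × (Fin m → Equiv.Perm (Fin k))) × Gam ν) :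
    Gam (Sum.map (Prod.fst : Fin m × Fin k → Fin m) ν) :=
  ⟨(Equiv.sumCongr (wr x.1.1 x.1.2) x.2.1.1, Equiv.sumCongr x.1.1 x.2.1.2), by
    rintro (y | y)
    · rfl
    · exact congrArg Sum.inr (x.2.2 y)⟩

theorem mk_inj : Function.Injective (mk (m := m) (k := k) ν) := by
  rintro ⟨⟨π, σ⟩, γ⟩ ⟨⟨π', σ'⟩, γ'⟩ h
  have h1 : Equiv.sumCongr (wr π σ) γ.1.1 = Equiv.sumCongr (wr π' σ') γ'.1.1 :=
    congrArg (fun z => z.1.1) h
  have h2 : Equiv.sumCongr π γ.1.2 = Equiv.sumCongr π' γ'.1.2 :=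
    congrArg (fun z => z.1.2) h
  have hπ : π = π' := by
    ext v
    have := congrArg (fun z : Equiv.Perm (Fin m ⊕ V) => z (Sum.inl v)) h2
    exact congrArg Fin.val (Sum.inl_injective this)
  have hσ : σ = σ' := by
    funext v
    ext a
    have := congrArg (fun z : Equiv.Perm ((Fin m × Fin k) ⊕ H) => z (Sum.inl (v, a))) h1
    have h3 := Sum.inl_injective this
    exact congrArg Fin.val (congrArg Prod.snd h3)
  have hγ : γ = γ' := by
    apply Subtype.ext
    apply Prod.ext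
    · apply Equiv.ext
      intro x
      have := congrArg (fun z : Equiv.Perm ((Fin m × Fin k) ⊕ H) => z (Sum.inr x)) h1
      exact Sum.inr_injective this
    · apply Equiv.ext
      intro x
      have := congrArg (fun z : Equiv.Perm (Fin m ⊕ V) => z (Sum.inr x)) h2
      exact Sum.inr_injective this
  rw [hπ, hσ, hγ]

theorem card_inl (v : Fin m) :
    Nat.card {h // Sum.map (Prod.fst : Fin m × Fin k → Fin m) ν h = Sum.inl v} = k := by
  have e : {h // Sum.map (Prod.fst : Fin m × Fin k → Fin m) ν h = Sum.inl v} ≃ Fin k :=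
    { toFun := fun x => match x with
        | ⟨Sum.inl y, _⟩ => y.2
        | ⟨Sum.inr y, hy⟩ => absurd hy (by simp)
      invFun := fun a => ⟨Sum.inl (v, a), rfl⟩
      left_inv := by
        rintro ⟨y | y, hy⟩
        · obtain ⟨a, b⟩ := y
          have : a = v := Sum.inl_injective hy
          subst this
          rfl
        · exact absurd hy (by simp)
      right_inv := fun a => rfl }
  rw [Nat.card_congr e, Nat.card_eq_fintype_card, Fintype.card_fin]

theorem card_inr (w : V) :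
    Nat.card {h // Sum.map (Prod.fst : Fin m × Fin k → Fin m) ν h = Sum.inr w} =
      Nat.card {h // ν h = w} := by
  refine Nat.card_congr
    { toFun := fun x => match x with
        | ⟨Sum.inr y, hy⟩ => ⟨y, Sum.inr_injective hy⟩
        | ⟨Sum.inl y, hy⟩ => absurd hy (by simp)
      invFun := fun a => ⟨Sum.inr a.1, congrArg Sum.inr a.2⟩
      left_inv := by
        rintro ⟨y | y, hy⟩
        · exact absurd hy (by simp)
        · rfl
      right_inv := fun a => rfl }

theorem card_fib {V' H' : Type} {ν' : H' → V'} (γ : Gam ν') (u : V') :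
    Nat.card {h // ν' h = u} = Nat.card {h // ν' h = γ.1.2 u} := by
  refine Nat.card_congr (γ.1.1.subtypeEquiv fun h => ?_)
  have h1 : ν' (γ.1.1 h) = γ.1.2 (ν' h) := γ.2 h
  rw [h1]
  exact (γ.1.2.injective.eq_iff).symm

theorem mk_surj [Finite V] [Finite H] (hk : ∀ v, Nat.card {h // ν h = v} ≠ k) :
    Function.Surjective (mk (m := m) (k := k) ν) := by
  intro δ
  have hδ : ∀ h, Sum.map (Prod.fst : Fin m × Fin k → Fin m) ν (δ.1.1 h) =
      δ.1.2 (Sum.map (Prod.fst : Fin m × Fin k → Fin m) ν h) := δ.2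
  have hP : ∀ v : Fin m, ∃ v', δ.1.2 (Sum.inl v) = Sum.inl v' := by
    intro v
    rcases h : δ.1.2 (Sum.inl v) with v' | w
    · exact ⟨v', rfl⟩
    · exfalso
      have h1 := card_fib δ (Sum.inl v)
      rw [h, card_inl, card_inr] at h1
      exact hk w h1.symm
  obtain ⟨⟨π, γ2⟩, hp⟩ := Equiv.Perm.mem_sumCongrHom_range_of_perm_mapsTo_inl (σ := δ.1.2) (by
    rintro _ ⟨v, rfl⟩
    obtain ⟨v', hv'⟩ := hP v
    exact ⟨v', hv'.symm⟩)
  have hp' : Equiv.sumCongr π γ2 = δ.1.2 := hp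
  have hG : ∀ x : Fin m × Fin k, ∃ x', δ.1.1 (Sum.inl x) = Sum.inl x' := by
    intro x
    rcases h : δ.1.1 (Sum.inl x) with x' | y
    · exact ⟨x', rfl⟩
    · exfalso
      have h1 := hδ (Sum.inl x)
      rw [h, ← hp'] at h1
      exact absurd h1 (by simp)
  obtain ⟨⟨g1, γ1⟩, hg⟩ := Equiv.Perm.mem_sumCongrHom_range_of_perm_mapsTo_inl (σ := δ.1.1) (by
    rintro _ ⟨x, rfl⟩
    obtain ⟨x', hx'⟩ := hG x
    exact ⟨x', hx'.symm⟩)
  have hg' : Equiv.sumCongr g1 γ1 = δ.1.1 := hg
  have h1 : ∀ x : Fin m × Fin k, (g1 x).1 = π x.1 := by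
    intro x
    have h2 := hδ (Sum.inl x)
    rw [← hg', ← hp'] at h2
    exact Sum.inl_injective h2
  have h3 : ∀ y : H, ν (γ1 y) = γ2 (ν y) := by
    intro y
    have h2 := hδ (Sum.inr y)
    rw [← hg', ← hp'] at h2
    exact Sum.inr_injective h2
  have hinj : ∀ v : Fin m, Function.Injective (fun a : Fin k => (g1 (v, a)).2) := by
    intro v a b hab
    have h4 : g1 (v, a) = g1 (v, b) := Prod.ext ((h1 (v, a)).trans (h1 (v, b)).symm) hab
    exact congrArg Prod.snd (g1.injective h4)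
  refine ⟨((π, fun v => Equiv.ofBijective _ (Finite.injective_iff_bijective.1 (hinj v))),
    ⟨(γ1, γ2), h3⟩), ?_⟩
  apply Subtype.ext
  apply Prod.ext
  · show Equiv.sumCongr (wr π _) γ1 = δ.1.1
    rw [← hg']
    congr 1
    apply Equiv.ext
    rintro ⟨v, a⟩
    exact Prod.ext (h1 (v, a)).symm rfl
  · exact hp'

end

theorem gsp : GspStmt := by
  classical
  intro Ψ m k V H _ _ ν hk
  have : Fintype (Gam ν) := Fintype.ofFinite _
  have hb : Function.Bijective (mk (m := m) (k := k) ν) := ⟨mk_inj ν, mk_surj ν hk⟩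
  have h1 : GS Ψ (Sum.map (Prod.fst : Fin m × Fin k → Fin m) ν) =
      ∑ᶠ x : (Equiv.Perm (Fin m) × (Fin m → Equiv.Perm (Fin k))) × Gam ν,
        Ψ (Fin m ⊕ V) ((Fin m × Fin k) ⊕ H) (Sum.map Prod.fst ν)
          (Equiv.sumCongr (wr x.1.1 x.1.2) x.2.1.1) := by
    unfold GS
    exact (finsum_eq_of_bijective (mk (m := m) (k := k) ν) hb (fun x => rfl)).symm
  rw [h1, finsum_eq_sum_of_fintype, Fintype.sum_prod_type, Fintype.sum_prod_type]
  apply Finset.sum_congr rfl
  intro π _
  apply Finset.sum_congr rfl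
  intro σ _
  unfold GS
  rw [finsum_eq_sum_of_fintype]
  rfl

end Pool.Agent.UMG.B.H37
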